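import Mathlib

/-!
# Sparse path-pairable graphs of unbounded diameter

There are path-pairable graphs with `n` vertices, at most `(2 - 1/22) n` edges and arbitrarily
large diameter.

Construction: three hubs; `5q` middle vertices, each adjacent to all three hubs; `2q` leaves at
each hub; and a tail consisting of layers of sizes `1, 2, 4, …, 2^K`, consecutive layers being
completely joined, all vertices of the last layer being adjacent to the three hubs.
-/

set_option linter.unusedSectionVars false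

namespace Pool.Agent.Results.MP_74cbe5_co.UnboundedDiameter

open Finset

/-- A graph is path-pairable if for every pairing `σ` of its vertices (an involution without fixed
points) there are paths `P v` from `v` to `σ v` such that paths belonging to different pairs have
no edge in common. -/
def PathPairable {V : Type*} (G : SimpleGraph V) : Prop :=
  ∀ σ : V → V, (∀ v, σ (σ v) = v) → (∀ v, σ v ≠ v) →
    ∃ P : ∀ v, G.Walk v (σ v), (∀ v, (P v).IsPath) ∧
      ∀ u v, u ≠ v → u ≠ σ v → ∀ e, e ∈ (P u).edges → e ∉ (P v).edges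

/-- It suffices to let every edge belong to at most one vertex, and to connect `v` to `σ v` by
edges belonging to `v` or to `σ v`. -/
theorem pathPairable_of_owner {V : Type*} [DecidableEq V] (G : SimpleGraph V)
    (H : ∀ σ : V → V, (∀ v, σ (σ v) = v) → (∀ v, σ v ≠ v) →
      ∃ R : Sym2 V → V → Prop, (∀ e x y, R e x → R e y → x = y) ∧
        ∀ v, (SimpleGraph.fromEdgeSet {e | e ∈ G.edgeSet ∧ (R e v ∨ R e (σ v))}).Reachable
          v (σ v)) : PathPairable G := by
  intro σ h1 h2
  obtain ⟨R, hR, hreach⟩ := H σ h1 h2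
  have hle : ∀ v, SimpleGraph.fromEdgeSet {e | e ∈ G.edgeSet ∧ (R e v ∨ R e (σ v))} ≤ G := by
    intro v a b hab
    rw [SimpleGraph.fromEdgeSet_adj] at hab
    exact hab.1.1
  have hw : ∀ v, ∃ p : G.Walk v (σ v), p.IsPath ∧ ∀ e ∈ p.edges, R e v ∨ R e (σ v) := by
    intro v
    obtain ⟨w⟩ := hreach v
    refine ⟨(w.toPath : _).1.mapLe (hle v), ?_, ?_⟩
    · rw [SimpleGraph.Walk.isPath_mapLe]
      exact w.toPath.2
    · intro e he
      rw [SimpleGraph.Walk.edges_mapLe_eq_edges] at he
      have := (w.toPath : _).1.edges_subset_edgeSet he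
      rw [SimpleGraph.edgeSet_fromEdgeSet] at this
      exact this.1.2
  choose P hP1 hP2 using hw
  refine ⟨P, hP1, ?_⟩
  intro u v huv huv' e he1 he2
  have h5 : ∀ a b, σ a = σ b → a = b := fun a b h => by rw [← h1 a, h, h1 b]
  rcases hP2 u e he1 with h3 | h3 <;> rcases hP2 v e he2 with h4 | h4
  · exact huv (hR e _ _ h3 h4)
  · exact huv' (hR e _ _ h3 h4)
  · have := hR e _ _ h3 h4
    apply huv'
    rw [← this, h1]
  · exact huv (h5 _ _ (hR e _ _ h3 h4))

/-! ## Counting lemmas -/

section counting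

variable {V : Type*} [DecidableEq V]

/-- Sets closed under the involution, of prescribed size up to one. -/
theorem exists_closed (σ : V → V) (h1 : ∀ v, σ (σ v) = v) (h2 : ∀ v, σ v ≠ v) (F : Finset V)
    (hF : ∀ v ∈ F, σ v ∈ F) (m : ℕ) (hm : m ≤ #F) :
    ∃ A ⊆ F, (∀ v ∈ A, σ v ∈ A) ∧ m ≤ #A ∧ #A ≤ m + 1 ∧ (m = 0 → A = ∅) := by
  induction m with
  | zero => exact ⟨∅, empty_subset _, by simp, by simp, by simp, fun _ => rfl⟩
  | succ m ih =>
    obtain ⟨A, hA1, hA2, hA3, hA4, -⟩ := ih (by omega)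
    by_cases h : m + 1 ≤ #A
    · exact ⟨A, hA1, hA2, h, by omega, by omega⟩
    · have hlt : #A < #F := by omega
      obtain ⟨v, hvF, hvA⟩ := exists_mem_notMem_of_card_lt_card hlt
      have hσA : σ v ∉ A := by
        intro h3
        have := hA2 _ h3
        rw [h1] at this
        exact hvA this
      refine ⟨insert v (insert (σ v) A), ?_, ?_, ?_, ?_, by omega⟩
      · intro x hx
        simp only [mem_insert] at hx
        rcases hx with rfl | rfl | hx
        · exact hvF
        · exact hF _ hvF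
        · exact hA1 hx
      · intro x hx
        simp only [mem_insert] at hx ⊢
        rcases hx with rfl | rfl | hx
        · exact Or.inr (Or.inl rfl)
        · exact Or.inl (h1 v)
        · exact Or.inr (Or.inr (hA2 x hx))
      · rw [card_insert_of_notMem, card_insert_of_notMem hσA]
        · omega
        · simp only [mem_insert, not_or]
          exact ⟨(h2 v).symm, hvA⟩
      · rw [card_insert_of_notMem, card_insert_of_notMem hσA]
        · omega
        · simp only [mem_insert, not_or]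
          exact ⟨(h2 v).symm, hvA⟩

theorem exists_cover (C O : Finset V) (h : #C ≤ #O) :
    ∃ g : V → V, ∀ y ∈ C, ∃ v ∈ O, g v = y := by
  obtain ⟨s, hs, hcard⟩ := exists_subset_card_eq h
  let e := equivOfCardEq hcard
  refine ⟨fun v => if hv : v ∈ s then (e ⟨v, hv⟩ : V) else v, ?_⟩
  intro y hy
  refine ⟨(e.symm ⟨y, hy⟩ : V), hs (e.symm ⟨y, hy⟩).2, ?_⟩
  simp


theorem fin3_a : ∀ a b : Fin 3, a ≠ b → b = a + 1 ∨ a = b + 1 := by decide
theorem fin3_b : ∀ a : Fin 3, a = a + 2 + 1 ∧ a + 1 = a + 2 + 2 ∧ a + 2 ≠ a ∧ a + 2 ≠ a + 1 := by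
  decide
theorem fin3_c : ∀ i k : Fin 3, i = k + 1 → k + 2 = i + 1 := by decide
theorem fin3_d : ∀ i : Fin 3, i + 1 + 2 = i ∧ i + 2 + 1 = i ∧ i + 2 + 2 = i + 1 ∧
    i + 1 + 1 = i + 2 ∧ i + 1 ≠ i + 2 := by decide

/-- Assignment of exit hubs to the middle vertices. -/
theorem assignment [Fintype V] (σ : V → V) (h1 : ∀ v, σ (σ v) = v) (h2 : ∀ v, σ v ≠ v)
    (M : Finset V) (h : V → Fin 3) (H : ℕ)
    (hH : ∀ i, #(univ.filter (fun y => y ∉ M ∧ h y = i)) ≤ H) (hM : 2 * H + 2 ≤ #M) :
    ∃ (o : V → Fin 3) (g : V → V), (∀ v ∈ M, σ v ∉ M → o v = h (σ v)) ∧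
      (∀ v ∈ M, σ v ∈ M → o v = o (σ v)) ∧
      (∀ y, y ∉ M → σ y ∉ M → h y ≠ h (σ y) →
        ∃ v ∈ M, (g v = y ∨ g v = σ y) ∧ o v ≠ h y ∧ o v ≠ h (σ y)) := by
  have hinj : Function.Injective σ := fun a b hab => by rw [← h1 a, hab, h1 b]
  set B : Fin 3 → Finset V := fun k => M.filter (fun v => σ v ∉ M ∧ h (σ v) = k) with hB
  set C : Fin 3 → Finset V :=
    fun k => univ.filter (fun y => y ∉ M ∧ σ y ∉ M ∧ h y = k + 1 ∧ h (σ y) = k + 2) with hC
  set Fr : Finset V := M.filter (fun v => σ v ∈ M) with hFr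
  have hcount : ∀ i, #(B i) + #(C (i + 2)) + #(C (i + 1)) ≤ H := by
    intro i
    have hd : i + 1 + 2 = i ∧ i + 2 + 1 = i ∧ i + 2 + 2 = i + 1 ∧ i + 1 + 1 = i + 2 ∧
      i + 1 ≠ i + 2 := fin3_d i
    obtain ⟨d1, d2, d3, d4, d5⟩ := hd
    have hdisj1 : Disjoint ((B i).image σ) (C (i + 2)) := by
      rw [disjoint_left]
      intro y hy hy2
      simp only [hB, hC, mem_image, mem_filter, mem_univ, true_and] at hy hy2
      obtain ⟨v, ⟨hv1, _⟩, rfl⟩ := hy
      rw [h1] at hy2
      exact hy2.2.1 hv1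
    have hdisj2 : Disjoint ((B i).image σ ∪ C (i + 2)) ((C (i + 1)).image σ) := by
      rw [disjoint_left]
      intro y hy hy2
      simp only [hB, hC, mem_union, mem_image, mem_filter, mem_univ, true_and] at hy hy2
      obtain ⟨v, ⟨hv1, hv2, hv3, hv4⟩, rfl⟩ := hy2
      rcases hy with ⟨u, ⟨hu1, _⟩, hu2⟩ | ⟨_, _, _, hu⟩
      · rw [hinj hu2] at hu1
        exact hv1 hu1
      · rw [h1, hv3, d3, d4] at hu
        exact d5 hu.symm
    have hsub : ((B i).image σ ∪ C (i + 2)) ∪ ((C (i + 1)).image σ) ⊆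
        univ.filter (fun y => y ∉ M ∧ h y = i) := by
      intro y hy
      simp only [hB, hC, mem_union, mem_image, mem_filter, mem_univ, true_and] at hy ⊢
      rcases hy with (⟨v, ⟨_, hv2, hv3⟩, rfl⟩ | ⟨hy1, _, hy3, _⟩) | ⟨v, ⟨_, hv2, _, hv4⟩, rfl⟩
      · exact ⟨hv2, hv3⟩
      · exact ⟨hy1, by rw [hy3, d2]⟩
      · exact ⟨hv2, by rw [hv4, d1]⟩
    have h3 := (card_le_card hsub).trans (hH i)
    rwa [card_union_of_disjoint hdisj2, card_union_of_disjoint hdisj1,
      card_image_of_injective _ hinj, card_image_of_injective _ hinj] at h3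
  have hc0 := hcount 0
  have hc1 := hcount 1
  have hc2 := hcount 2
  rw [show (0 : Fin 3) + 2 = 2 from rfl, show (0 : Fin 3) + 1 = 1 from rfl] at hc0
  rw [show (1 : Fin 3) + 2 = 0 from rfl, show (1 : Fin 3) + 1 = 2 from rfl] at hc1
  rw [show (2 : Fin 3) + 2 = 1 from rfl, show (2 : Fin 3) + 1 = 0 from rfl] at hc2
  have htotal : #Fr + (#(B 0) + #(B 1) + #(B 2)) = #M := by
    have e1 : #(M.filter (fun v => σ v ∈ M)) + #(M.filter (fun v => ¬ σ v ∈ M)) = #M :=
      card_filter_add_card_filter_not _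
    have e2 : #(M.filter (fun v => ¬ σ v ∈ M)) = #(B 0) + #(B 1) + #(B 2) := by
      rw [card_eq_sum_card_fiberwise (f := fun v => h (σ v)) (t := univ)
        (fun x _ => by simp), Fin.sum_univ_three]
      simp only [hB, filter_filter]
    rw [hFr, ← e2]
    exact e1
  have hFrcl : ∀ v ∈ Fr, σ v ∈ Fr := by
    intro v hv
    simp only [hFr, mem_filter] at hv ⊢
    rw [h1]
    exact ⟨hv.2, hv.1⟩
  have hkey : (#(C 0) ≤ #(B 0) ∧ #(C 1) ≤ #(B 1) ∧ #(C 2) ≤ #(B 2)) ∨
      (#(C 0) - #(B 0)) + (#(C 1) - #(B 1)) + (#(C 2) - #(B 2)) + 2 ≤ #Fr := by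
    omega
  obtain ⟨F0, hF0s, hF0c, hF0a, hF0b, hF0z⟩ := exists_closed σ h1 h2 Fr hFrcl
    (#(C 0) - #(B 0)) (by omega)
  have hcl1 : ∀ v ∈ Fr \ F0, σ v ∈ Fr \ F0 := by
    intro v hv
    rw [mem_sdiff] at hv ⊢
    refine ⟨hFrcl v hv.1, fun h3 => hv.2 ?_⟩
    have := hF0c _ h3
    rwa [h1] at this
  have hcardF0 : #(Fr \ F0) + #F0 = #Fr := card_sdiff_add_card_eq_card hF0s
  have hF0z' : #(C 0) - #(B 0) = 0 → #F0 = 0 := fun h3 => by rw [hF0z h3]; simp
  obtain ⟨F1, hF1s, hF1c, hF1a, hF1b, hF1z⟩ := exists_closed σ h1 h2 (Fr \ F0) hcl1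
    (#(C 1) - #(B 1)) (by omega)
  have hcardF1 : #((Fr \ F0) \ F1) + #F1 = #(Fr \ F0) := card_sdiff_add_card_eq_card hF1s
  have hF1z' : #(C 1) - #(B 1) = 0 → #F1 = 0 := fun h3 => by rw [hF1z h3]; simp
  set o : V → Fin 3 := fun v => if v ∈ F0 then 0 else if v ∈ F1 then 1 else
    if v ∈ Fr then 2 else h (σ v) with ho
  have hF1Fr : ∀ v ∈ F1, v ∈ Fr ∧ v ∉ F0 := fun v hv => mem_sdiff.1 (hF1s hv)
  have hoB : ∀ v, v ∉ Fr → o v = h (σ v) := by
    intro v hv
    simp only [ho]
    rw [if_neg (fun h3 => hv (hF0s h3)), if_neg (fun h3 => hv (hF1Fr v h3).1), if_neg hv]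
  have hBFr : ∀ k, ∀ v ∈ B k, v ∉ Fr := by
    intro k v hv h3
    simp only [hB, hFr, mem_filter] at hv h3
    exact hv.2.1 h3.2
  set O : Fin 3 → Finset V := fun k => M.filter (fun v => o v = k) with hO
  have hBO : ∀ k, B k ⊆ O k := by
    intro k v hv
    have h3 := hBFr k v hv
    simp only [hO, mem_filter]
    rw [hoB v h3]
    simp only [hB, mem_filter] at hv
    exact ⟨hv.1, hv.2.2⟩
  have hFrM : ∀ v ∈ Fr, v ∈ M := fun v hv => (mem_filter.1 hv).1
  have hO0 : #(B 0) + #F0 ≤ #(O 0) := by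
    rw [← card_union_of_disjoint (disjoint_left.2 fun v hv h3 => hBFr 0 v hv (hF0s h3))]
    apply card_le_card
    apply union_subset (hBO 0)
    intro v hv
    simp only [hO, mem_filter]
    refine ⟨hFrM v (hF0s hv), ?_⟩
    simp only [ho]
    rw [if_pos hv]
  have hO1 : #(B 1) + #F1 ≤ #(O 1) := by
    rw [← card_union_of_disjoint (disjoint_left.2 fun v hv h3 => hBFr 1 v hv (hF1Fr v h3).1)]
    apply card_le_card
    apply union_subset (hBO 1)
    intro v hv
    simp only [hO, mem_filter]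
    refine ⟨hFrM v (hF1Fr v hv).1, ?_⟩
    simp only [ho]
    rw [if_neg (hF1Fr v hv).2, if_pos hv]
  have hO2 : #(B 2) + #((Fr \ F0) \ F1) ≤ #(O 2) := by
    rw [← card_union_of_disjoint (disjoint_left.2 fun v hv h3 =>
      hBFr 2 v hv (mem_sdiff.1 (mem_sdiff.1 h3).1).1)]
    apply card_le_card
    apply union_subset (hBO 2)
    intro v hv
    rw [mem_sdiff, mem_sdiff] at hv
    simp only [hO, mem_filter]
    refine ⟨hFrM v hv.1.1, ?_⟩
    simp only [ho]
    rw [if_neg hv.1.2, if_neg hv.2, if_pos hv.1.1]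
  have hCO : ∀ k, #(C k) ≤ #(O k) := by
    intro k
    fin_cases k
    · show #(C 0) ≤ #(O 0)
      omega
    · show #(C 1) ≤ #(O 1)
      omega
    · show #(C 2) ≤ #(O 2)
      omega
  choose g hg using fun k => exists_cover (C k) (O k) (hCO k)
  refine ⟨o, fun v => g (o v) v, ?_, ?_, ?_⟩
  · intro v hv hσ
    apply hoB
    simp only [hFr, mem_filter, not_and]
    exact fun _ => hσ
  · intro v hv hσ
    have e0 : v ∈ F0 ↔ σ v ∈ F0 := ⟨hF0c v, fun h3 => by have := hF0c _ h3; rwa [h1] at this⟩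
    have e1 : v ∈ F1 ↔ σ v ∈ F1 := ⟨hF1c v, fun h3 => by have := hF1c _ h3; rwa [h1] at this⟩
    have e2 : v ∈ Fr := by simp only [hFr, mem_filter]; exact ⟨hv, hσ⟩
    have e3 : σ v ∈ Fr := hFrcl v e2
    simp only [ho, ← e0, ← e1, e2, e3, if_true]
  · intro y hy hσ hne
    rcases fin3_a _ _ hne with h3 | h3
    · obtain ⟨a1, a2, a3, a4⟩ := fin3_b (h y)
      have hyC : y ∈ C (h y + 2) := by
        simp only [hC, mem_filter, mem_univ, true_and]
        exact ⟨hy, hσ, a1, by rw [h3]; exact a2⟩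
      obtain ⟨v, hv, hgv⟩ := hg _ y hyC
      simp only [hO, mem_filter] at hv
      refine ⟨v, hv.1, Or.inl ?_, ?_, ?_⟩
      · show g (o v) v = y
        rw [hv.2]; exact hgv
      · rw [hv.2]; exact a3
      · rw [hv.2, h3]; exact a4
    · obtain ⟨a1, a2, a3, a4⟩ := fin3_b (h (σ y))
      have hyC : σ y ∈ C (h (σ y) + 2) := by
        simp only [hC, mem_filter, mem_univ, true_and]
        rw [h1]
        exact ⟨hσ, hy, a1, by rw [h3]; exact a2⟩
      obtain ⟨v, hv, hgv⟩ := hg _ _ hyC
      simp only [hO, mem_filter] at hv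
      refine ⟨v, hv.1, Or.inr ?_, ?_, ?_⟩
      · show g (o v) v = σ y
        rw [hv.2]; exact hgv
      · rw [hv.2, h3]; exact a4
      · rw [hv.2]; exact a3

end counting

/-! ## The graphs -/

/-- The vertices: three hubs, `5q` middle vertices, `2q` leaves at each hub, and the tail. -/
abbrev Vt (K q : ℕ) : Type := Fin 3 ⊕ Fin (5 * q) ⊕ (Fin 3 × Fin (2 * q)) ⊕ Fin (2 ^ (K + 1) - 1)

/-- The layer of a tail vertex: layer `k` consists of the numbers `2^k - 1, …, 2^(k+1) - 2`. -/
def layer (t : ℕ) : ℕ := Nat.log 2 (t + 1)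

/-- Oriented adjacency. -/
def Up {K q : ℕ} : Vt K q → Vt K q → Prop
  | .inr (.inl _), .inl _ => True
  | .inr (.inr (.inl p)), .inl k => p.1 = k
  | .inr (.inr (.inr t)), .inl _ => layer t = K
  | .inr (.inr (.inr t)), .inr (.inr (.inr t')) => layer t' = layer t + 1
  | _, _ => False

theorem Up_asymm {K q : ℕ} : ∀ a b : Vt K q, Up a b → ¬ Up b a := by
  rintro (i | v | p | t) (j | v' | p' | t') h1 h2
  all_goals simp only [Up] at h1 h2
  all_goals omega

/-- The graph. -/
def Gr (K q : ℕ) : SimpleGraph (Vt K q) where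
  Adj a b := Up a b ∨ Up b a
  symm := ⟨fun _ _ h => h.symm⟩
  loopless := ⟨fun a h => by
    rcases h with h | h <;> exact Up_asymm a a h h⟩

/-- Tail vertex number `n`. -/
def tl {K q : ℕ} (n : ℕ) : Vt K q :=
  if h : n < 2 ^ (K + 1) - 1 then .inr (.inr (.inr ⟨n, h⟩)) else .inl 0

/-- The exit hub of the vertices which are not middle vertices. -/
def exitHub {K q : ℕ} : Vt K q → Fin 3
  | .inl i => i
  | .inr (.inl _) => 0
  | .inr (.inr (.inl p)) => p.1
  | .inr (.inr (.inr t)) => if layer t = K then 0 else 1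

/-- The owner of an oriented edge. -/
def own {K q : ℕ} (o : Vt K q → Fin 3) (g : Vt K q → Vt K q) : Vt K q → Vt K q → Vt K q
  | .inr (.inl v), .inl k => if k = o (.inr (.inl v)) then .inr (.inl v) else g (.inr (.inl v))
  | .inr (.inr (.inr t)), .inl k => if k = 0 then .inr (.inr (.inr t)) else tl (t + 1 - 2 ^ K)
  | .inr (.inr (.inr _)), .inr (.inr (.inr t')) => tl (t' + 1 - 2 ^ layer t')
  | a, _ => a

/-- Edge `e` is owned by `y`. -/
def R {K q : ℕ} (o : Vt K q → Fin 3) (g : Vt K q → Vt K q) (e : Sym2 (Vt K q)) (y : Vt K q) :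
    Prop := ∃ a b, e = s(a, b) ∧ Up a b ∧ own o g a b = y

theorem R_unique {K q : ℕ} (o : Vt K q → Fin 3) (g : Vt K q → Vt K q) (e : Sym2 (Vt K q))
    (x y : Vt K q) (hx : R o g e x) (hy : R o g e y) : x = y := by
  obtain ⟨a, b, rfl, h1, rfl⟩ := hx
  obtain ⟨a', b', h2, h3, rfl⟩ := hy
  rw [Sym2.eq_iff] at h2
  rcases h2 with ⟨rfl, rfl⟩ | ⟨rfl, rfl⟩
  · rfl
  · exact absurd h3 (Up_asymm _ _ h1)

/-- The graph formed by the edges owned by `y` or by `z`. -/
abbrev Hy {K q : ℕ} (o : Vt K q → Fin 3) (g : Vt K q → Vt K q) (y z : Vt K q) :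
    SimpleGraph (Vt K q) :=
  SimpleGraph.fromEdgeSet {e | e ∈ (Gr K q).edgeSet ∧ (R o g e y ∨ R o g e z)}

theorem Hy_adj {K q : ℕ} {o : Vt K q → Fin 3} {g : Vt K q → Vt K q} {y z a b : Vt K q}
    (h : Up a b) (hown : own o g a b = y ∨ own o g a b = z) : (Hy o g y z).Adj a b := by
  rw [SimpleGraph.fromEdgeSet_adj]
  refine ⟨⟨Or.inl h, ?_⟩, ?_⟩
  · rcases hown with h1 | h1
    · exact Or.inl ⟨a, b, rfl, h, h1⟩
    · exact Or.inr ⟨a, b, rfl, h, h1⟩
  · rintro rfl
    exact Up_asymm _ _ h h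

theorem layer_eq {j t : ℕ} (h : t < 2 ^ j) : layer (2 ^ j + t - 1) = j := by
  unfold layer
  have : 0 < 2 ^ j := by positivity
  rw [Nat.log_eq_iff (Or.inr ⟨by omega, by omega⟩), pow_succ]
  omega

theorem lt_of_layer {t k : ℕ} (h : layer t = k) : t + 1 < 2 ^ (k + 1) ∧ 2 ^ k ≤ t + 1 := by
  unfold layer at h
  rwa [Nat.log_eq_iff (Or.inr ⟨by omega, by omega⟩), and_comm] at h

theorem layer_le {K t : ℕ} (h : t < 2 ^ (K + 1) - 1) : layer t ≤ K := by
  unfold layer
  have : Nat.log 2 (t + 1) < K + 1 := Nat.log_lt_of_lt_pow (by omega) (by omega)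
  omega

/-- The access of the vertices which are not middle vertices to their exit hubs. -/
theorem access {K q : ℕ} (o : Vt K q → Fin 3) (g : Vt K q → Vt K q) (y z : Vt K q)
    (hy : ∀ v, y ≠ .inr (.inl v)) : (Hy o g y z).Reachable y (.inl (exitHub y)) := by
  rcases y with i | v | p | t
  · exact SimpleGraph.Reachable.refl _
  · exact absurd rfl (hy v)
  · apply SimpleGraph.Adj.reachable
    apply Hy_adj
    · simp only [Up, exitHub]
    · left
      simp only [own]
  · by_cases hK : layer t = K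
    · apply SimpleGraph.Adj.reachable
      apply Hy_adj
      · simp only [Up]
        exact hK
      · left
        simp only [exitHub, hK, if_true, own]
    · have hlK : layer t < K := lt_of_le_of_ne (layer_le t.2) hK
      have ht := lt_of_layer (rfl : layer t = layer t)
      have htl : tl (t : ℕ) = (.inr (.inr (.inr t)) : Vt K q) := by
        unfold tl
        rw [dif_pos t.2]
      -- the path through the layers
      have hpow : ∀ j, layer t < j → (t : ℕ) + 1 < 2 ^ j := fun j hj =>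
        lt_of_lt_of_le ht.1 (Nat.pow_le_pow_right (by norm_num) hj)
      have hpt : ∀ j, j ≤ K → layer t < j → (2 ^ j + (t : ℕ) - 1 < 2 ^ (K + 1) - 1) := by
        intro j hj hj2
        have h1 := hpow j hj2
        have h2 : 2 ^ (j + 1) ≤ 2 ^ (K + 1) := Nat.pow_le_pow_right (by norm_num) (by omega)
        rw [pow_succ] at h2
        omega
      have hreach : ∀ j, layer t < j → j ≤ K →
          (Hy o g (.inr (.inr (.inr t))) z).Reachable (.inr (.inr (.inr t)))
            (tl (2 ^ j + (t : ℕ) - 1)) := by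
        intro j hj
        induction j, hj using Nat.le_induction with
        | base =>
          intro hj2
          have h1 := hpt _ hj2 (Nat.lt_succ_self _)
          have h2 := hpow _ (Nat.lt_succ_self (layer t))
          have h3 := layer_eq (j := layer t + 1) (t := (t : ℕ)) (by omega)
          apply SimpleGraph.Adj.reachable
          unfold tl
          rw [Nat.succ_eq_add_one, dif_pos h1]
          apply Hy_adj
          · simp only [Up]
            exact h3
          · left
            simp only [own, h3]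
            rw [show 2 ^ (layer t + 1) + (t : ℕ) - 1 + 1 - 2 ^ (layer t + 1) = (t : ℕ) by omega]
            exact htl
        | succ j hj ih =>
          intro hj2
          refine (ih (by omega)).trans ?_
          have h1 := hpt j (by omega) hj
          have h1' := hpt (j + 1) hj2 (by omega)
          have h2 := hpow j hj
          have h2' := hpow (j + 1) (by omega)
          have h3 := layer_eq (j := j) (t := (t : ℕ)) (by omega)
          have h3' := layer_eq (j := j + 1) (t := (t : ℕ)) (by omega)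
          apply SimpleGraph.Adj.reachable
          unfold tl
          rw [dif_pos h1, dif_pos h1']
          apply Hy_adj
          · simp only [Up]
            rw [h3, h3']
          · left
            simp only [own, h3']
            rw [show 2 ^ (j + 1) + (t : ℕ) - 1 + 1 - 2 ^ (j + 1) = (t : ℕ) by omega]
            exact htl
      refine (hreach K hlK le_rfl).trans ?_
      have h1 := hpt K le_rfl hlK
      have h2 := hpow K hlK
      have h3 := layer_eq (j := K) (t := (t : ℕ)) (by omega)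
      apply SimpleGraph.Adj.reachable
      unfold tl
      rw [dif_pos h1]
      apply Hy_adj
      · simp only [Up]
        exact h3
      · left
        simp only [exitHub, hK, if_false, own, one_ne_zero]
        rw [show 2 ^ K + (t : ℕ) - 1 + 1 - 2 ^ K = (t : ℕ) by omega]
        exact htl

theorem Hy_comm {K q : ℕ} (o : Vt K q → Fin 3) (g : Vt K q → Vt K q) (y z : Vt K q) :
    Hy o g y z = Hy o g z y := by
  unfold Hy
  congr 1
  ext e
  simp only [Set.mem_ofPred_eq]
  rw [or_comm]

/-- The set of middle vertices. -/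
def Mid (K q : ℕ) : Finset (Vt K q) := univ.image (fun v : Fin (5 * q) => Sum.inr (Sum.inl v))

theorem mem_Mid {K q : ℕ} {y : Vt K q} : y ∈ Mid K q ↔ ∃ v, y = .inr (.inl v) := by
  simp only [Mid, mem_image, mem_univ, true_and, eq_comm]

theorem card_Mid (K q : ℕ) : #(Mid K q) = 5 * q := by
  unfold Mid
  rw [card_image_of_injective, card_univ, Fintype.card_fin]
  intro a b h
  simpa using h

theorem two_pow_pos (K : ℕ) : 2 ≤ 2 ^ (K + 1) := by
  have : 2 ^ 1 ≤ 2 ^ (K + 1) := Nat.pow_le_pow_right (by norm_num) (by omega)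
  simpa using this

theorem hub_count (K q : ℕ) (i : Fin 3) :
    #(univ.filter (fun y : Vt K q => y ∉ Mid K q ∧ exitHub y = i)) ≤ 2 * q + 2 ^ (K + 1) := by
  have hsub : univ.filter (fun y : Vt K q => y ∉ Mid K q ∧ exitHub y = i) ⊆
      ({Sum.inl i} ∪ univ.image (fun j : Fin (2 * q) => (.inr (.inr (.inl (i, j))) : Vt K q))) ∪
        univ.image (fun t : Fin (2 ^ (K + 1) - 1) => (.inr (.inr (.inr t)) : Vt K q)) := by
    intro y hy
    simp only [mem_filter, mem_univ, true_and, mem_Mid, not_exists] at hy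
    simp only [mem_union, mem_singleton, mem_image, mem_univ, true_and]
    obtain ⟨h1, h2⟩ := hy
    rcases y with k | v | p | t
    · left; left
      simp only [exitHub] at h2
      rw [h2]
    · exact absurd rfl (h1 v)
    · left; right
      simp only [exitHub] at h2
      exact ⟨p.2, by rw [← h2]⟩
    · right
      exact ⟨t, rfl⟩
  refine (card_le_card hsub).trans ?_
  refine (card_union_le _ _).trans ?_
  have h1 := card_union_le ({Sum.inl i} : Finset (Vt K q))
    (univ.image (fun j : Fin (2 * q) => (.inr (.inr (.inl (i, j))) : Vt K q)))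
  have h2 := card_image_le (s := (univ : Finset (Fin (2 * q))))
    (f := fun j => (.inr (.inr (.inl (i, j))) : Vt K q))
  have h3 := card_image_le (s := (univ : Finset (Fin (2 ^ (K + 1) - 1))))
    (f := fun t => (.inr (.inr (.inr t)) : Vt K q))
  rw [card_univ, Fintype.card_fin] at h2 h3
  rw [card_singleton] at h1
  have := two_pow_pos K
  omega

theorem Gr_pathPairable (K q : ℕ) (hq : 2 * 2 ^ (K + 1) + 2 ≤ q) : PathPairable (Gr K q) := by
  apply pathPairable_of_owner
  intro σ h1 h2
  obtain ⟨o, g, ho1, ho2, ho3⟩ := assignment σ h1 h2 (Mid K q) exitHub (2 * q + 2 ^ (K + 1))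
    (hub_count K q) (by rw [card_Mid]; omega)
  refine ⟨R o g, R_unique o g, ?_⟩
  intro y
  show (Hy o g y (σ y)).Reachable y (σ y)
  by_cases hy : y ∈ Mid K q
  · have hyo : (Hy o g y (σ y)).Reachable y (.inl (o y)) := by
      obtain ⟨v, rfl⟩ := mem_Mid.1 hy
      apply SimpleGraph.Adj.reachable
      apply Hy_adj
      · simp only [Up]
      · left
        simp only [own, if_true]
    by_cases hz : σ y ∈ Mid K q
    · have hzo : (Hy o g y (σ y)).Reachable (σ y) (.inl (o (σ y))) := by
        obtain ⟨v, hv⟩ := mem_Mid.1 hz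
        rw [hv]
        apply SimpleGraph.Adj.reachable
        apply Hy_adj
        · simp only [Up]
        · right
          simp only [own, if_true]
      rw [← ho2 y hy hz] at hzo
      exact hyo.trans hzo.symm
    · have hza := access o g (σ y) y (fun v hv => hz (mem_Mid.2 ⟨v, hv⟩))
      rw [Hy_comm, ← ho1 y hy hz] at hza
      exact hyo.trans hza.symm
  · have hya := access o g y (σ y) (fun v hv => hy (mem_Mid.2 ⟨v, hv⟩))
    by_cases hz : σ y ∈ Mid K q
    · have hzo : (Hy o g y (σ y)).Reachable (σ y) (.inl (o (σ y))) := by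
        obtain ⟨v, hv⟩ := mem_Mid.1 hz
        rw [hv]
        apply SimpleGraph.Adj.reachable
        apply Hy_adj
        · simp only [Up]
        · right
          simp only [own, if_true]
      rw [ho1 (σ y) hz (by rw [h1]; exact hy), h1] at hzo
      exact hya.trans hzo.symm
    · have hza := access o g (σ y) y (fun v hv => hz (mem_Mid.2 ⟨v, hv⟩))
      rw [Hy_comm] at hza
      refine hya.trans (SimpleGraph.Reachable.trans ?_ hza.symm)
      by_cases hh : exitHub y = exitHub (σ y)
      · rw [hh]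
      · obtain ⟨w, hw, hgw, hw1, hw2⟩ := ho3 y hy hz hh
        obtain ⟨v, rfl⟩ := mem_Mid.1 hw
        have e1 : (Hy o g y (σ y)).Adj (.inr (.inl v)) (.inl (exitHub y)) := by
          apply Hy_adj
          · simp only [Up]
          · simp only [own]
            rw [if_neg hw1.symm]
            exact hgw
        have e2 : (Hy o g y (σ y)).Adj (.inr (.inl v)) (.inl (exitHub (σ y))) := by
          apply Hy_adj
          · simp only [Up]
          · simp only [own]
            rw [if_neg hw2.symm]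
            exact hgw
        exact e1.symm.reachable.trans e2.reachable

/-- Connectedness. -/
theorem Gr_connected (K q : ℕ) (hq : 0 < q) : (Gr K q).Connected := by
  have hhub : ∀ i j : Fin 3, (Gr K q).Reachable (.inl i) (.inl j) := by
    intro i j
    have e : ∀ k : Fin 3, (Gr K q).Adj (.inr (.inl ⟨0, by omega⟩)) (.inl k) := by
      intro k
      left
      simp only [Up]
    exact (e i).symm.reachable.trans (e j).reachable
  have hle : ∀ y z : Vt K q, Hy (fun _ => 0) id y z ≤ Gr K q := by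
    intro y z a b hab
    rw [SimpleGraph.fromEdgeSet_adj] at hab
    exact hab.1.1
  have hall : ∀ y : Vt K q, (Gr K q).Reachable y (.inl 0) := by
    intro y
    by_cases hy : ∃ v, y = .inr (.inl v)
    · obtain ⟨v, rfl⟩ := hy
      apply SimpleGraph.Adj.reachable
      left
      simp only [Up]
    · push Not at hy
      exact ((access (fun _ => 0) id y y hy).mono (hle y y)).trans (hhub _ _)
  have : Nonempty (Vt K q) := ⟨.inl 0⟩
  refine SimpleGraph.Connected.mk ?_
  intro u v
  exact (hall u).trans (hall v).symm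

/-- The number of edges. -/
theorem Gr_edges (K q : ℕ) : (Gr K q).edgeSet.ncard ≤
    21 * q + (2 ^ (K + 1) - 1) * (3 + (2 ^ (K + 1) - 1)) := by
  let f : (Fin (5 * q) × Fin 3) ⊕ (Fin 3 × Fin (2 * q)) ⊕
      (Fin (2 ^ (K + 1) - 1) × (Fin 3 ⊕ Fin (2 ^ (K + 1) - 1))) → Sym2 (Vt K q) := fun x =>
    match x with
    | .inl (v, k) => s(.inr (.inl v), .inl k)
    | .inr (.inl p) => s(.inr (.inr (.inl p)), .inl p.1)
    | .inr (.inr (t, .inl k)) => s(.inr (.inr (.inr t)), .inl k)
    | .inr (.inr (t, .inr t')) => s(.inr (.inr (.inr t)), .inr (.inr (.inr t')))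
  have hup : ∀ a b : Vt K q, Up a b → s(a, b) ∈ ((univ.image f : Finset (Sym2 (Vt K q))) :
      Set (Sym2 (Vt K q))) := by
    intro a b h
    simp only [coe_image, coe_univ, Set.image_univ, Set.mem_range]
    rcases a with i | v | p | t <;> rcases b with j | v' | p' | t' <;>
      simp only [Up] at h
    · exact ⟨.inl (v, j), rfl⟩
    · refine ⟨.inr (.inl p), ?_⟩
      simp only [f, h]
    · exact ⟨.inr (.inr (t, .inl j)), rfl⟩
    · exact ⟨.inr (.inr (t, .inr t')), rfl⟩
  have hsub : (Gr K q).edgeSet ⊆ ((univ.image f : Finset (Sym2 (Vt K q))) :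
      Set (Sym2 (Vt K q))) := by
    intro e he
    induction e using Sym2.ind with
    | _ a b =>
      rw [SimpleGraph.mem_edgeSet] at he
      rcases he with h | h
      · exact hup a b h
      · rw [Sym2.eq_swap]
        exact hup b a h
  have h1 := Set.ncard_le_ncard hsub (Finset.finite_toSet _)
  rw [Set.ncard_coe_finset] at h1
  refine h1.trans (card_image_le.trans ?_)
  rw [card_univ]
  simp only [Fintype.card_sum, Fintype.card_prod, Fintype.card_fin]
  omega

/-- A potential function. -/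
def pot {K q : ℕ} : Vt K q → ℕ
  | .inr (.inr (.inr t)) => layer t
  | _ => K + 1

theorem pot_up {K q : ℕ} (a b : Vt K q) (h : Up a b) : pot b ≤ pot a + 1 ∧ pot a ≤ pot b + 1 := by
  rcases a with i | v | p | t <;> rcases b with j | v' | p' | t' <;>
    simp only [Up] at h <;> simp only [pot] <;> omega

theorem pot_walk {K q : ℕ} {u v : Vt K q} (p : (Gr K q).Walk u v) :
    pot v ≤ pot u + p.length := by
  induction p with
  | nil => simp
  | cons h q ih =>
    rw [SimpleGraph.Walk.length_cons]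
    rcases h with h | h
    · have := (pot_up _ _ h).1
      omega
    · have := (pot_up _ _ h).2
      omega

/-- **Path-pairable graphs with `n` vertices, at most `(2 - 1/22) n` edges and unbounded
diameter.** -/
theorem result : ∃ ε : ℝ, 0 < ε ∧ ∀ D : ℕ, ∃ (V : Type) (_ : Fintype V) (G : SimpleGraph V),
    Even (Fintype.card V) ∧ PathPairable G ∧ G.Connected ∧
      (G.edgeSet.ncard : ℝ) ≤ (2 - ε) * Fintype.card V ∧ ∃ u v, D ≤ G.dist u v := by
  refine ⟨1 / 22, by norm_num, ?_⟩
  intro D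
  set T := 2 ^ (D + 1) with hT
  have hT2 : 2 ≤ T := two_pow_pos D
  have hcard : Fintype.card (Vt D (4 * T ^ 2)) = 44 * T ^ 2 + 2 + T := by
    simp only [Fintype.card_sum, Fintype.card_prod, Fintype.card_fin]
    rw [← hT]
    omega
  refine ⟨Vt D (4 * T ^ 2), inferInstance, Gr D (4 * T ^ 2), ?_, ?_, ?_, ?_, ?_⟩
  · rw [hcard, hT, pow_succ]
    exact ⟨22 * (2 ^ D * 2) ^ 2 + 1 + 2 ^ D, by ring⟩
  · apply Gr_pathPairable
    rw [← hT]
    nlinarith
  · exact Gr_connected _ _ (by positivity)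
  · have h1 := Gr_edges D (4 * T ^ 2)
    rw [← hT] at h1
    have h2 : (T - 1) * (3 + (T - 1)) ≤ T * (T + 2) :=
      Nat.mul_le_mul (by omega) (by omega)
    have h3 : (Gr D (4 * T ^ 2)).edgeSet.ncard ≤ 84 * T ^ 2 + T * (T + 2) := by omega
    have h4 : ((Gr D (4 * T ^ 2)).edgeSet.ncard : ℝ) ≤ 84 * (T : ℝ) ^ 2 + T * (T + 2) := by
      exact_mod_cast h3
    rw [hcard]
    push_cast
    have h5 : (2 : ℝ) ≤ T := by exact_mod_cast hT2
    nlinarith
  · have hpos : 0 < 2 ^ (D + 1) - 1 := by omega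
    refine ⟨.inr (.inr (.inr ⟨0, hpos⟩)), .inl 0, ?_⟩
    obtain ⟨p, hp⟩ := (Gr_connected D (4 * T ^ 2) (by positivity)).exists_walk_length_eq_dist
      (.inr (.inr (.inr ⟨0, hpos⟩))) (.inl 0)
    rw [← hp]
    have h1 := pot_walk p
    simp only [pot, layer] at h1
    simp at h1
    omega

end Pool.Agent.Results.MP_74cbe5_co.UnboundedDiameter
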